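import Pool.Agent.helper34.DT.Spec

/-!
# Density theorem (project DT): BL, the Lie algebra is closed under brackets
-/

namespace Pool.Agent.HC.DT

open Pool.Agent.HC

theorem BL_der_der {V : Type} [AddCommGroup V] [Module ℝ V] {n : ℕ} (X Y : V →ₗ[ℝ] V)
    (η : V [⋀^Fin n]→ₗ[ℝ] ℝ) (v : Fin n → V) :
    der X (der Y η) v = (∑ j, η (Function.update v j (Y (X (v j))))) +
      ∑ j, ∑ i ∈ Finset.univ.erase j,
        η (Function.update (Function.update v j (X (v j))) i (Y (v i))) := by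
  rw [der_apply, ← Finset.sum_add_distrib]
  refine Finset.sum_congr rfl fun j _ => ?_
  rw [der_apply, ← Finset.add_sum_erase Finset.univ _ (Finset.mem_univ j)]
  congr 1
  · simp
  · refine Finset.sum_congr rfl fun i hi => ?_
    rw [Function.update_of_ne (Finset.ne_of_mem_erase hi)]

theorem BL_swap {V : Type} [AddCommGroup V] [Module ℝ V] {n : ℕ} (X Y : V →ₗ[ℝ] V)
    (η : V [⋀^Fin n]→ₗ[ℝ] ℝ) (v : Fin n → V) :
    (∑ j, ∑ i ∈ Finset.univ.erase j,
        η (Function.update (Function.update v j (X (v j))) i (Y (v i)))) =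
      ∑ j, ∑ i ∈ Finset.univ.erase j,
        η (Function.update (Function.update v j (Y (v j))) i (X (v i))) := by
  rw [Finset.sum_comm' (s' := fun i => Finset.univ.erase i) (t' := Finset.univ)]
  · refine Finset.sum_congr rfl fun i _ => Finset.sum_congr rfl fun j hj => ?_
    rw [Function.update_comm (Finset.ne_of_mem_erase hj)]
  · intro x y
    simp only [Finset.mem_univ, Finset.mem_erase, true_and, and_true]
    exact ne_comm

theorem BL_comm {V : Type} [AddCommGroup V] [Module ℝ V] {n : ℕ} (X Y Z : V →ₗ[ℝ] V)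
    (hZ : ∀ v, Z v = X (Y v) - Y (X v)) (η : V [⋀^Fin n]→ₗ[ℝ] ℝ) :
    der Z η = der Y (der X η) - der X (der Y η) := by
  ext v
  rw [AlternatingMap.sub_apply, BL_der_der, BL_der_der, BL_swap X Y, der_apply,
    add_sub_add_right_eq_sub, ← Finset.sum_sub_distrib]
  refine Finset.sum_congr rfl fun j _ => ?_
  rw [hZ, AlternatingMap.map_update_sub]

theorem BL : BL_stmt := by
  intro W _ _ Lam ψ X hX Y hY
  obtain ⟨hX, hX'⟩ := hX
  obtain ⟨hY, hY'⟩ := hY
  refine ⟨fun v w => ?_, fun k a ξ h η => ?_⟩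
  · have h1 := hX (Y v) w
    have h2 := hY v (X w)
    have h3 := hY (X v) w
    have h4 := hX v (Y w)
    have e1 : (X * Y - Y * X) v = X (Y v) - Y (X v) := rfl
    have e2 : (X * Y - Y * X) w = X (Y w) - Y (X w) := rfl
    rw [e1, e2, map_sub, map_sub, LinearMap.sub_apply]
    linarith
  · rw [BL_comm (powMap k (X : W →ₗ[ℝ] W)) (powMap k (Y : W →ₗ[ℝ] W)) _ _ η, map_sub,
      hX' k a ξ h, hY' k a ξ h, sub_zero]
    intro v
    rfl

end Pool.Agent.HC.DT
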