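import Pool.Agent.helper34.DT.Spec

/-!
# Density theorem (project DT): BZ, positivity is an open condition
-/

namespace Pool.Agent.HC.DT

open Pool.Agent.HC

theorem BZ_bound (W : Type) [NormedAddCommGroup W] [NormedSpace ℂ W] [FiniteDimensional ℂ W]
    (ψ : W →ₗ[ℝ] W →ₗ[ℝ] ℝ) : ∃ B : W →L[ℝ] W →L[ℝ] ℝ, ∀ v w, B v w = ψ v w := by
  haveI : FiniteDimensional ℝ W := FiniteDimensional.complexToReal W
  refine ⟨LinearMap.toContinuousLinearMap
    ((LinearMap.toContinuousLinearMap : (W →ₗ[ℝ] ℝ) ≃ₗ[ℝ] (W →L[ℝ] ℝ)).toLinearMap ∘ₗ ψ),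
    fun v w => rfl⟩

theorem BZ : BZ_stmt := by
  intro W _ _ _ Lam ψ hψ
  haveI : FiniteDimensional ℝ W := FiniteDimensional.complexToReal W
  haveI : ProperSpace W := FiniteDimensional.proper ℝ W
  obtain ⟨B, hB⟩ := BZ_bound W ψ
  rcases subsingleton_or_nontrivial W with hW | hW
  · exact ⟨1, one_pos, fun Z _ v hv => absurd (Subsingleton.elim v 0) hv⟩
  have hcont : Continuous fun v : W => B v (JJ W v) :=
    (B.continuous).clm_apply (JJ W).continuous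
  have hne : (Metric.sphere (0 : W) 1).Nonempty := by
    obtain ⟨x, hx⟩ := exists_norm_eq W (zero_le_one)
    exact ⟨x, by simp [hx]⟩
  obtain ⟨x, hx, hmin⟩ := (isCompact_sphere (0 : W) 1).exists_isMinOn hne hcont.continuousOn
  have hx0 : x ≠ 0 := by
    rintro rfl
    simp at hx
  set c := B x (JJ W x) with hc
  have hcpos : 0 < c := by
    rw [hc, hB]
    exact hψ.pos x hx0
  have hq : ∀ v : W, v ≠ 0 → c * ‖v‖ ^ 2 ≤ B v (JJ W v) := by
    intro v hv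
    have hn : ‖v‖ ≠ 0 := norm_ne_zero_iff.mpr hv
    have hs : (‖v‖⁻¹ • v) ∈ Metric.sphere (0 : W) 1 := by
      simp [norm_smul, hn]
    have h1 : c ≤ B (‖v‖⁻¹ • v) (JJ W (‖v‖⁻¹ • v)) := hmin hs
    rw [map_smul, map_smul, map_smul, ContinuousLinearMap.smul_apply, smul_eq_mul, smul_eq_mul]
      at h1
    calc c * ‖v‖ ^ 2 ≤ (‖v‖⁻¹ * (‖v‖⁻¹ * B v (JJ W v))) * ‖v‖ ^ 2 :=
          mul_le_mul_of_nonneg_right h1 (by positivity)
      _ = B v (JJ W v) := by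
          field_simp
  refine ⟨c / (‖B‖ + 1), by positivity, fun Z hZ v hv => ?_⟩
  have hn : 0 < ‖v‖ := norm_pos_iff.mpr hv
  have h2 : |B v ((Z - JJ W) v)| ≤ ‖B‖ * ‖v‖ * (‖Z - JJ W‖ * ‖v‖) := by
    have h3 := B.le_opNorm₂ v ((Z - JJ W) v)
    rw [Real.norm_eq_abs] at h3
    refine h3.trans (mul_le_mul_of_nonneg_left ((Z - JJ W).le_opNorm v) (by positivity))
  have h4 : ‖B‖ * ‖Z - JJ W‖ < c := by
    have h5 : (‖B‖ + 1) * ‖Z - JJ W‖ < c := by
      have := mul_lt_mul_of_pos_left hZ (show 0 < ‖B‖ + 1 by positivity)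
      rwa [mul_div_cancel₀ _ (by positivity)] at this
    have h6 := norm_nonneg (Z - JJ W)
    nlinarith
  have h7 : B v (Z v) = B v (JJ W v) + B v ((Z - JJ W) v) := by
    rw [ContinuousLinearMap.sub_apply, map_sub]
    ring
  rw [← hB, h7]
  have h8 := hq v hv
  have h9 := (abs_le.mp h2).1
  have h10 : ‖B‖ * ‖v‖ * (‖Z - JJ W‖ * ‖v‖) < c * ‖v‖ ^ 2 := by
    have h11 : ‖B‖ * ‖v‖ * (‖Z - JJ W‖ * ‖v‖) = (‖B‖ * ‖Z - JJ W‖) * ‖v‖ ^ 2 := by ring
    rw [h11]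
    exact mul_lt_mul_of_pos_right h4 (by positivity)
  linarith

end Pool.Agent.HC.DT
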